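import Pool.Agent.H7.MF.Stmts

/-!
Row NUE of the board `mf18` (MP_fd41b2_co): real numbers.
-/

set_option autoImplicit false

open Finset

namespace Pool.MF7

open Pool.Agent.H23.KT Pool.Agent.H46.KW Pool.KQ Pool.GT7 Pool.GU7 Pool.GV7

/-- Bonferroni. -/
theorem nue_bonf (s : ℝ) (h0 : 0 ≤ s) (h1 : s ≤ 1) (n : ℕ) :
    (1 - s) ^ n ≤ 1 - n * s + (n : ℝ) * ((n : ℝ) - 1) / 2 * s ^ 2 := by
  induction n with
  | zero => simp
  | succ n ih =>
    have h2 : 0 ≤ 1 - s := by linarith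
    have h3 : (1 - s) ^ (n + 1) ≤
        (1 - s) * (1 - n * s + (n : ℝ) * ((n : ℝ) - 1) / 2 * s ^ 2) := by
      rw [pow_succ, mul_comm]
      exact mul_le_mul_of_nonneg_left ih h2
    have h4 : 0 ≤ (n : ℝ) * ((n : ℝ) - 1) / 2 := by
      rcases Nat.eq_zero_or_pos n with rfl | hn
      · simp
      · have : (1 : ℝ) ≤ n := by exact_mod_cast hn
        have h5 : 0 ≤ (n : ℝ) - 1 := by linarith
        positivity
    have h6 : 0 ≤ (n : ℝ) * ((n : ℝ) - 1) / 2 * s ^ 3 := by positivity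
    refine h3.trans ?_
    push_cast
    nlinarith

/-- The concave quadratic. -/
theorem nue_quad (n k b : ℝ) (hn : 4 ≤ n) (hk : 3 ≤ k) (hb : n + k ≤ b)
    (hs : 2 * b + 1 ≤ (n + 1) * k) :
    0 ≤ 196 / 100 * (n * k - b) * (b - 1) - n * k * (n - 1) -
      306 / 1000 * (n * k) * (b - 1) := by
  obtain ⟨x, rfl⟩ : ∃ x : ℝ, n = 4 + x := ⟨n - 4, by ring⟩
  obtain ⟨y, rfl⟩ : ∃ y : ℝ, k = 3 + y := ⟨k - 3, by ring⟩
  have hx : 0 ≤ x := by linarith
  have hy : 0 ≤ y := by linarith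
  obtain ⟨b0, hb0⟩ : ∃ b0 : ℝ, b0 = (4 + x) + (3 + y) := ⟨_, rfl⟩
  obtain ⟨b1, hb1⟩ : ∃ b1 : ℝ, b1 = ((4 + x + 1) * (3 + y) - 1) / 2 := ⟨_, rfl⟩
  have h0 : 0 ≤ 196 / 100 * ((4 + x) * (3 + y) - b0) * (b0 - 1) - (4 + x) * (3 + y) * (4 + x - 1) -
      306 / 1000 * ((4 + x) * (3 + y)) * (b0 - 1) := by
    rw [hb0]
    ring_nf
    positivity
  have h1 : 0 ≤ 196 / 100 * ((4 + x) * (3 + y) - b1) * (b1 - 1) - (4 + x) * (3 + y) * (4 + x - 1) -
      306 / 1000 * ((4 + x) * (3 + y)) * (b1 - 1) := by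
    rw [hb1]
    ring_nf
    positivity
  have h2 : b0 ≤ b := by rw [hb0]; exact hb
  have h3 : b ≤ b1 := by rw [hb1]; linarith
  rcases (h2.trans h3).eq_or_lt with h4 | h4
  · have : b = b0 := le_antisymm (h4 ▸ h3) h2
    rw [this]
    exact h0
  · have h5 : 0 < b1 - b0 := by linarith
    have h6 : 0 ≤ (b1 - b0) * (196 / 100 * ((4 + x) * (3 + y) - b) * (b - 1) -
        (4 + x) * (3 + y) * (4 + x - 1) - 306 / 1000 * ((4 + x) * (3 + y)) * (b - 1)) := by
      have e : (b1 - b0) * (196 / 100 * ((4 + x) * (3 + y) - b) * (b - 1) -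
        (4 + x) * (3 + y) * (4 + x - 1) - 306 / 1000 * ((4 + x) * (3 + y)) * (b - 1)) =
        (b1 - b) * (196 / 100 * ((4 + x) * (3 + y) - b0) * (b0 - 1) -
          (4 + x) * (3 + y) * (4 + x - 1) - 306 / 1000 * ((4 + x) * (3 + y)) * (b0 - 1)) +
        (b - b0) * (196 / 100 * ((4 + x) * (3 + y) - b1) * (b1 - 1) -
          (4 + x) * (3 + y) * (4 + x - 1) - 306 / 1000 * ((4 + x) * (3 + y)) * (b1 - 1)) +
        196 / 100 * ((b - b0) * (b1 - b) * (b1 - b0)) := by ring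
      rw [e]
      have a1 : 0 ≤ b1 - b := by linarith
      have a2 : 0 ≤ b - b0 := by linarith
      exact add_nonneg (add_nonneg (mul_nonneg a1 h0) (mul_nonneg a2 h1))
        (mul_nonneg (by norm_num) (mul_nonneg (mul_nonneg a2 a1) h5.le))
    exact nonneg_of_mul_nonneg_right h6 h5

theorem NUE_thm : NUEStmt := by
  intro p w r hp
  have hw2 := hp.w2
  have hrw := hp.rw
  have hrp := hp.rp
  have hs1 := hp.s1
  obtain ⟨k, hk⟩ : ∃ k : ℕ, p + 3 = r + k := ⟨p + 3 - r, by omega⟩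
  have hk3 : 3 ≤ k := by omega
  have hk' : p + 3 - r = k := by omega
  rw [hk'] at hs1
  have hbR : (p : ℝ) + 3 = (r : ℝ) + k := by exact_mod_cast hk
  have hkR : (3 : ℝ) ≤ k := by exact_mod_cast hk3
  have hwR : (2 : ℝ) ≤ w := by exact_mod_cast hw2
  have hrR : (w : ℝ) + 2 ≤ r := by exact_mod_cast hrw
  have hsR : 2 * (r : ℝ) + 1 ≤ ((w : ℝ) + 1) * k := by exact_mod_cast hs1
  have hkr : (p : ℝ) + 3 - r = k := by linarith
  obtain ⟨b, hb⟩ : ∃ b : ℝ, b = (p : ℝ) + 3 := ⟨_, rfl⟩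
  obtain ⟨K, hK⟩ : ∃ K : ℝ, K = (k : ℝ) := ⟨_, rfl⟩
  obtain ⟨W, hW⟩ : ∃ W : ℝ, W = (w : ℝ) := ⟨_, rfl⟩
  have hp2 : (p : ℝ) + 2 = b - 1 := by rw [hb]; ring
  have hr : (r : ℝ) = b - K := by rw [hb, hK]; linarith
  have hS : sE p w r = 2 * (1 - b / ((W + 2) * K)) / (W + 1) := by
    unfold sE
    rw [hkr, hb, hK, hW]
  rw [hr, ← hW] at hrR
  rw [hr, ← hW, ← hK] at hsR
  rw [← hK] at hkR
  rw [← hW] at hwR
  obtain ⟨σ, hσ⟩ : ∃ σ : ℝ, σ = sE p w r := ⟨_, rfl⟩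
  have hσe : σ = 2 * (1 - b / ((W + 2) * K)) / (W + 1) := by rw [hσ, hS]
  have hW1 : 0 < W + 1 := by linarith
  have hW2 : 0 < W + 2 := by linarith
  have hK0 : 0 < K := by linarith
  have hnk : 0 < (W + 2) * K := by positivity
  have hb0 : 0 < b := by linarith
  -- the equation for `σ`
  have hmain : (W + 1) * σ * ((W + 2) * K) = 2 * ((W + 2) * K - b) := by
    rw [hσe]
    field_simp
  have h1 : 1 / (W + 2) ≤ σ := by
    rw [div_le_iff₀ hW2]
    have h2 : (W + 1) * K ≤ (W + 1) * K * (σ * (W + 2)) := by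
      have : (W + 1) * K * (σ * (W + 2)) = 2 * ((W + 2) * K - b) := by rw [← hmain]; ring
      rw [this]
      nlinarith
    have h3 : 0 < (W + 1) * K := by positivity
    nlinarith
  have h0 : 0 < σ := lt_of_lt_of_le (by positivity) h1
  have h2 : σ ≤ 2 / 3 := by
    rw [hσe, div_le_iff₀ hW1]
    have : 0 ≤ b / ((W + 2) * K) := by positivity
    nlinarith
  have hth : thE p w r = 1 - 49 / 50 * σ := by unfold thE; rw [hσ]
  have hy : yE p w r = 1 - 99 / 100 * σ := by unfold yE; rw [hσ]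
  rw [hth, hy, ← hσ, ← hW, ← hb, hp2, hr]
  refine ⟨h1, h2, by linarith, by linarith, ?_, ?_⟩
  · have hs0 : 0 ≤ 99 / 100 * σ := by positivity
    have hs1' : 99 / 100 * σ ≤ 1 := by linarith
    have hB := nue_bonf (99 / 100 * σ) hs0 hs1' (w + 2)
    push_cast at hB
    rw [← hW] at hB
    have e : b - (b - K) = K := by ring
    rw [e]
    have h5 : K * (1 - 99 / 100 * σ) ^ (w + 2) ≤ K * (1 - (W + 2) * (99 / 100 * σ) +
        (W + 2) * ((W + 2) - 1) / 2 * (99 / 100 * σ) ^ 2) := mul_le_mul_of_nonneg_left hB hK0.le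
    have h6 : b * (1 - 99 / 100 * σ) - (b - K) - K * (1 - (W + 2) * (99 / 100 * σ) +
        (W + 2) * ((W + 2) - 1) / 2 * (99 / 100 * σ) ^ 2) =
        99 / 100 * σ * (1 / 100) * ((W + 2) * K - b) := by
      have : K * ((W + 2) * ((W + 2) - 1) / 2 * (99 / 100 * σ) ^ 2) =
          (99 / 100) ^ 2 * σ / 2 * ((W + 1) * σ * ((W + 2) * K)) := by ring
      have e2 : K * (1 - (W + 2) * (99 / 100 * σ) +
        (W + 2) * ((W + 2) - 1) / 2 * (99 / 100 * σ) ^ 2) =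
        K * (1 - (W + 2) * (99 / 100 * σ)) +
        K * ((W + 2) * ((W + 2) - 1) / 2 * (99 / 100 * σ) ^ 2) := by ring
      rw [e2, this, hmain]
      ring
    have h7 : b / (200 * (W + 2)) ≤ 99 / 100 * σ * (1 / 100) * ((W + 2) * K - b) := by
      have h8 : (W + 1) * K / 2 ≤ (W + 2) * K - b := by nlinarith
      have h9 : 99 / 100 * (1 / (W + 2)) * (1 / 100) * ((W + 1) * K / 2) ≤
          99 / 100 * σ * (1 / 100) * ((W + 2) * K - b) := by
        refine mul_le_mul ?_ h8 (by positivity) (by positivity)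
        nlinarith
      refine le_trans ?_ h9
      rw [div_le_iff₀ (by positivity)]
      have e3 : 99 / 100 * (1 / (W + 2)) * (1 / 100) * ((W + 1) * K / 2) * (200 * (W + 2)) =
          99 / 100 * ((W + 1) * K) := by
        field_simp
        ring
      rw [e3]
      nlinarith
    linarith
  · have hq := nue_quad (W + 2) K b (by linarith) hkR (by linarith) (by nlinarith)
    have hb1 : 0 < b - 1 := by linarith
    have e4 : (W + 1) * (49 / 50 * σ - 1 / (b - 1)) =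
        (196 / 100 * ((W + 2) * K - b) * (b - 1) - (W + 2) * K * (W + 2 - 1)) /
          (((W + 2) * K) * (b - 1)) := by
      rw [eq_div_iff (by positivity)]
      have e5 : (W + 1) * (49 / 50 * σ - 1 / (b - 1)) * ((W + 2) * K * (b - 1)) =
          49 / 50 * (b - 1) * ((W + 1) * σ * ((W + 2) * K)) -
            (W + 1) * ((W + 2) * K) * (1 / (b - 1) * (b - 1)) := by ring
      rw [e5, hmain, one_div_mul_cancel hb1.ne']
      ring
    rw [e4, le_div_iff₀ (by positivity)]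
    linarith

end Pool.MF7
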